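import Pool.Agent.H126R2.CDC.Main
import Pool.Agent.Helper998.Kotz.Graph

set_option autoImplicit false
set_option linter.unusedSectionVars false

open Finset
open scoped Classical

namespace Pool.Agent.Results.MP_781dd6_co.HalfIntegral

open Pool.Agent.Helper998.Kotz
open Pool.Agent.H126R2.CDC (T3 IsFl exists_double_cover)
open Pool.Agent.Helper879.ECD (cn F2)

/-!
Every finite simple graph without cut edges has a family of directed cycles of length at least 3
which covers every arc of the associated digraph exactly twice.
-/

section general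
variable {V E : Type} [Fintype V] [Fintype E]

/-- the number of edges of D at v -/
noncomputable def deg (ends : E → Sym2 V) (D : Finset E) (v : V) : ℕ :=
  (D.filter fun e => v ∈ ends e).card

theorem ind_ends (ends : E → Sym2 V) (hl : ∀ e, ¬ (ends e).IsDiag) (e : E) (v : V) :
    ((if v ∈ ends e then 1 else 0 : ZMod 2)) =
      (if vx ends e false = v then 1 else 0) + (if vx ends e true = v then 1 else 0) := by
  have h3 := card_darts ends hl e v
  rw [Finset.card_filter, Fintype.sum_bool] at h3
  have h4 := congrArg (fun n : ℕ => (n : ZMod 2)) h3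
  push_cast at h4
  rw [← h4]
  ring

/-- An edge set with even degrees meets every cut in an even number of edges. -/
theorem cross_even (ends : E → Sym2 V) (hl : ∀ e, ¬ (ends e).IsDiag) (D : Finset E)
    (hD : ∀ v, Even (deg ends D v)) (X : Finset V) :
    Even (D.filter fun e => ¬ (vx ends e false ∈ X ↔ vx ends e true ∈ X)).card := by
  have h1 : ((∑ v ∈ X, deg ends D v : ℕ) : ZMod 2) = 0 := by
    push_cast
    exact Finset.sum_eq_zero fun v _ => (ZMod.natCast_eq_zero_iff_even).2 (hD v)
  rw [← ZMod.natCast_eq_zero_iff_even, ← h1]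
  unfold deg
  push_cast
  simp only [Finset.card_filter]
  push_cast
  rw [Finset.sum_comm]
  refine Finset.sum_congr rfl fun e _ => ?_
  simp only [ind_ends ends hl e]
  rw [Finset.sum_add_distrib, Finset.sum_ite_eq, Finset.sum_ite_eq]
  by_cases ha : vx ends e false ∈ X <;> by_cases hb : vx ends e true ∈ X <;> simp [ha, hb]
  decide

/-- Eight even edge sets covering every edge exactly twice, if there is no cut of size one. -/
theorem eight (ends : E → Sym2 V) (hl : ∀ e, ¬ (ends e).IsDiag)
    (hcut : ∀ X : Finset V, cn (fun e => vx ends e false) (fun e => vx ends e true) univ X ≠ 1) :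
    ∃ S : T3 → Finset E, (∀ i v, Even (deg ends (S i) v)) ∧
      ∀ e, (univ.filter fun i => e ∈ S i).card = 2 := by
  obtain ⟨S, hS1, hS2⟩ := exists_double_cover (fun h : E × Bool => vx ends h.1 h.2) hcut
  refine ⟨fun c => univ.filter fun e => c ∈ S e, ?_, ?_⟩
  · intro c v
    have h1 := hS2 c v
    rw [← ZMod.natCast_eq_zero_iff_even, ← h1]
    unfold deg
    rw [Finset.card_filter, Finset.sum_filter, Fintype.sum_prod_type]
    push_cast
    refine Finset.sum_congr rfl fun e _ => ?_
    rw [Fintype.sum_bool]
    by_cases h2 : c ∈ S e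
    · simp only [h2, if_true]
      rw [ind_ends ends hl e v, add_comm]
    · simp only [h2, if_false]
      simp
  · intro e
    rw [← hS1 e]
    congr 1
    ext c
    simp

end general

section simple
variable {V : Type} [Fintype V] (G : SimpleGraph V)

/-- the subgraph with edge set D -/
def HD (D : Finset G.edgeSet) : SimpleGraph V :=
  SimpleGraph.fromEdgeSet ((fun e : G.edgeSet => (e : Sym2 V)) '' (D : Set G.edgeSet))

theorem HD_adj (D : Finset G.edgeSet) (a b : V) :
    (HD G D).Adj a b ↔ ∃ e ∈ D, (e : Sym2 V) = s(a, b) := by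
  unfold HD
  rw [SimpleGraph.fromEdgeSet_adj]
  constructor
  · rintro ⟨⟨e, he, h1⟩, -⟩
    exact ⟨e, he, h1⟩
  · rintro ⟨e, he, h1⟩
    refine ⟨⟨e, he, h1⟩, ?_⟩
    have h2 := e.2
    rw [h1, SimpleGraph.mem_edgeSet] at h2
    exact h2.ne

theorem HD_le (D : Finset G.edgeSet) : HD G D ≤ G := by
  intro a b h
  rw [HD_adj] at h
  obtain ⟨e, -, h1⟩ := h
  have h2 := e.2
  rw [h1, SimpleGraph.mem_edgeSet] at h2
  exact h2

theorem notdiag (e : G.edgeSet) : ¬ ((e : Sym2 V)).IsDiag :=
  SimpleGraph.not_isDiag_of_mem_edgeSet G e.2

/-- a nonempty even edge set contains a cycle -/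
theorem exists_cycle (D : Finset G.edgeSet) (hD : ∀ v, Even (deg (fun e : G.edgeSet => (e : Sym2 V)) D v))
    (hne : D.Nonempty) : ∃ (v : V) (c : (HD G D).Walk v v), c.IsCycle := by
  by_contra hno
  push Not at hno
  have hac : (HD G D).IsAcyclic := fun v c hc => hno v c hc
  rw [SimpleGraph.isAcyclic_iff_forall_adj_isBridge] at hac
  obtain ⟨e, he⟩ := hne
  set en : G.edgeSet → Sym2 V := fun e => (e : Sym2 V) with hen
  let a := vx en e false
  let b := vx en e true
  have hab : (e : Sym2 V) = s(a, b) := vx_spec en e
  have hadj : (HD G D).Adj a b := (HD_adj G D a b).2 ⟨e, he, hab⟩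
  have hbr := hac hadj
  rw [SimpleGraph.isBridge_iff] at hbr
  let X : Finset V := univ.filter fun x => ((HD G D).deleteEdges {s(a, b)}).Reachable a x
  have hX : ∀ x, x ∈ X ↔ ((HD G D).deleteEdges {s(a, b)}).Reachable a x := by
    intro x; simp [X]
  have h1 := cross_even en (fun e => notdiag G e) D hD X
  have h2 : (D.filter fun e => ¬ (vx en e false ∈ X ↔ vx en e true ∈ X)) = {e} := by
    ext f
    rw [mem_filter, mem_singleton]
    constructor
    · rintro ⟨hf, hcr⟩
      by_contra hfe
      apply hcr
      have hadj2 : ((HD G D).deleteEdges {s(a, b)}).Adj (vx en f false) (vx en f true) := by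
        rw [SimpleGraph.deleteEdges_adj]
        refine ⟨(HD_adj G D _ _).2 ⟨f, hf, vx_spec en f⟩, ?_⟩
        intro h3
        rw [Set.mem_singleton_iff, ← vx_spec en f] at h3
        exact hfe (Subtype.ext (h3.trans hab.symm))
      rw [hX, hX]
      exact ⟨fun h => h.trans hadj2.reachable, fun h => h.trans hadj2.symm.reachable⟩
    · rintro rfl
      refine ⟨he, ?_⟩
      intro h3
      apply hbr
      rw [← hX]
      exact h3.1 ((hX _).2 (SimpleGraph.Reachable.refl _))
  rw [h2, card_singleton] at h1
  exact absurd h1 (by decide)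

/-- decomposition of an even edge set into cycles -/
theorem decompose : ∀ (n : ℕ) (D : Finset G.edgeSet), D.card = n →
    (∀ v, Even (deg (fun e : G.edgeSet => (e : Sym2 V)) D v)) →
    ∃ L : List (Σ v : V, G.Walk v v), (∀ c ∈ L, c.2.IsCycle) ∧
      ∀ e : G.edgeSet, (L.map fun c => c.2.edges.count (e : Sym2 V)).sum = if e ∈ D then 1 else 0 := by
  intro n
  induction n using Nat.strong_induction_on with
  | _ n ih =>
  intro D hn hD
  by_cases hne : D.Nonempty
  · obtain ⟨v, c0, hc0⟩ := exists_cycle G D hD hne
    let c : G.Walk v v := c0.mapLe (HD_le G D)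
    have hc : c.IsCycle := hc0.mapLe (HD_le G D)
    have hce : c.edges = c0.edges := SimpleGraph.Walk.edges_mapLe_eq_edges _ _
    have hsub : ∀ e : G.edgeSet, (e : Sym2 V) ∈ c.edges → e ∈ D := by
      intro e he
      rw [hce] at he
      have h1 := c0.edges_subset_edgeSet he
      revert h1
      have h3 : ∀ q : Sym2 V, (e : Sym2 V) = q → q ∈ (HD G D).edgeSet → e ∈ D := by
        intro q
        induction q using Sym2.ind with
        | _ x y =>
        intro hq h2
        rw [SimpleGraph.mem_edgeSet, HD_adj] at h2
        obtain ⟨f, hf, hf2⟩ := h2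
        have : e = f := Subtype.ext (hq.trans hf2.symm)
        rw [this]; exact hf
      exact h3 _ rfl
    let D' := D.filter fun e : G.edgeSet => (e : Sym2 V) ∉ c.edges
    let D1 := D.filter fun e : G.edgeSet => (e : Sym2 V) ∈ c.edges
    have hD1 : ∀ x, deg (fun e : G.edgeSet => (e : Sym2 V)) D1 x = c.edges.countP (fun e => x ∈ e) := by
      intro x
      have h2 : c.edges.countP (fun e => x ∈ e) = (c.edges.toFinset.filter fun e => x ∈ e).card := by
        have h3 : (c.edges.toFinset.filter fun e => x ∈ e) =
            (c.edges.filter fun e => decide (x ∈ e)).toFinset := by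
          ext q
          simp only [mem_filter, List.mem_toFinset, List.mem_filter, decide_eq_true_eq]
        rw [h3, List.toFinset_card_of_nodup (hc.isTrail.edges_nodup.filter _),
          List.countP_eq_length_filter]
      rw [h2]
      unfold deg
      rw [← Finset.card_map ⟨Subtype.val, Subtype.val_injective⟩]
      congr 1
      ext q
      simp only [mem_map, mem_filter, List.mem_toFinset, Function.Embedding.coeFn_mk, D1]
      constructor
      · rintro ⟨e, ⟨⟨h3, h4⟩, h5⟩, rfl⟩
        exact ⟨h4, h5⟩
      · rintro ⟨h3, h4⟩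
        have h5 : q ∈ G.edgeSet := c.edges_subset_edgeSet h3
        exact ⟨⟨q, h5⟩, ⟨⟨hsub ⟨q, h5⟩ h3, h3⟩, h4⟩, rfl⟩
    have hD' : ∀ x, Even (deg (fun e : G.edgeSet => (e : Sym2 V)) D' x) := by
      intro x
      have h2 : deg (fun e : G.edgeSet => (e : Sym2 V)) D x =
          deg (fun e : G.edgeSet => (e : Sym2 V)) D1 x +
          deg (fun e : G.edgeSet => (e : Sym2 V)) D' x := by
        unfold deg
        rw [← card_union_of_disjoint]
        · congr 1
          ext e
          simp only [mem_union, mem_filter, D1, D']
          tauto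
        · rw [Finset.disjoint_left]
          intro e h3 h4
          simp only [mem_filter, D1, D'] at h3 h4
          exact h4.1.2 h3.1.2
      have h3 : Even (deg (fun e : G.edgeSet => (e : Sym2 V)) D1 x) := by
        rw [hD1 x]
        have := (hc.isTrail.even_countP_edges_iff x).2 (fun h => absurd rfl h)
        convert this
      have h4 := hD x
      rw [h2, Nat.even_add] at h4
      exact h4.1 h3
    have hcard : D'.card < n := by
      rw [← hn]
      apply Finset.card_lt_card
      rw [Finset.ssubset_iff_of_subset (Finset.filter_subset _ _)]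
      obtain ⟨q, hq⟩ := c.edges.exists_mem_of_ne_nil (by
        intro h
        have h5 := hc.three_le_length
        rw [← SimpleGraph.Walk.length_edges, h] at h5
        simp at h5)
      have h5 : q ∈ G.edgeSet := c.edges_subset_edgeSet hq
      refine ⟨⟨q, h5⟩, hsub ⟨q, h5⟩ hq, ?_⟩
      rw [mem_filter]
      exact fun h => h.2 hq
    obtain ⟨L, hL1, hL2⟩ := ih _ hcard D' rfl hD'
    refine ⟨⟨v, c⟩ :: L, ?_, ?_⟩
    · intro d hd
      rcases List.mem_cons.1 hd with rfl | hd
      · exact hc
      · exact hL1 d hd
    · intro e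
      rw [List.map_cons, List.sum_cons, hL2 e]
      by_cases h1 : (e : Sym2 V) ∈ c.edges
      · rw [List.count_eq_one_of_mem hc.isTrail.edges_nodup h1, if_pos (hsub e h1), if_neg]
        intro h2
        rw [mem_filter] at h2
        exact h2.2 h1
      · rw [List.count_eq_zero_of_not_mem h1, zero_add]
        have h2 : e ∈ D' ↔ e ∈ D := by
          rw [mem_filter]
          exact ⟨fun h => h.1, fun h => ⟨h, h1⟩⟩
        simp only [h2]
  · rw [Finset.not_nonempty_iff_eq_empty] at hne
    refine ⟨[], by simp, ?_⟩
    intro e
    simp [hne]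

/-- Both directions of a closed walk together traverse the arc (u, w) as often as the walk uses the
edge. -/
theorem both (u w : V) (huw : u ≠ w) : ∀ l : List G.Dart,
    (l.filter (fun d => decide (d.toProd = (u, w)))).length +
    ((l.map SimpleGraph.Dart.symm).reverse.filter (fun d => decide (d.toProd = (u, w)))).length =
      (l.map SimpleGraph.Dart.edge).count s(u, w) := by
  intro l
  induction l with
  | nil => simp
  | cons d l ih =>
    rw [List.map_cons, List.reverse_cons, List.filter_append, List.length_append, List.map_cons,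
      List.count_cons, ← ih, List.filter_cons]
    have h1 : (d.edge == s(u, w)) = decide (d.toProd = (u, w) ∨ d.toProd = (w, u)) := by
      rw [Bool.eq_iff_iff, beq_iff_eq, decide_eq_true_eq, SimpleGraph.dart_edge_eq_mk'_iff]
    have h2 : ([d.symm].filter (fun d => decide (d.toProd = (u, w)))).length =
        if d.toProd = (w, u) then 1 else 0 := by
      have h3 : d.symm.toProd = (u, w) ↔ d.toProd = (w, u) := by
        rw [SimpleGraph.Dart.symm_toProd]
        constructor
        · intro h; rw [← Prod.swap_swap d.toProd, h]; rfl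
        · intro h; rw [h]; rfl
      by_cases h4 : d.symm.toProd = (u, w)
      · rw [List.filter_cons, if_pos (decide_eq_true h4), List.filter_nil, if_pos (h3.1 h4)]
        rfl
      · rw [List.filter_cons, if_neg (fun h => h4 (of_decide_eq_true h)), List.filter_nil,
          if_neg (fun h => h4 (h3.2 h))]
        rfl
    rw [h2, h1]
    by_cases h3 : d.toProd = (u, w)
    · have h4 : ¬ d.toProd = (w, u) := by
        rw [h3]
        intro h
        exact huw (Prod.mk.inj h).1
      rw [if_pos (decide_eq_true h3), if_neg h4, if_pos (decide_eq_true (Or.inl h3)),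
        List.length_cons]
      omega
    · rw [if_neg (fun h => h3 (of_decide_eq_true h))]
      by_cases h4 : d.toProd = (w, u)
      · rw [if_pos h4, if_pos (decide_eq_true (Or.inr h4))]
        omega
      · rw [if_neg h4, if_neg (fun h => (of_decide_eq_true h).elim h3 h4)]
        omega

theorem sum_flat {α β : Type} (f : β → ℕ) (L : α → List β) : ∀ l : List α,
    ((l.flatMap L).map f).sum = (l.map fun i => ((L i).map f).sum).sum := by
  intro l
  induction l with
  | nil => simp
  | cons a l ih =>
    rw [List.flatMap_cons, List.map_append, List.sum_append, ih, List.map_cons, List.sum_cons]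

end simple

/-- Every finite simple graph without cut edges has a list of directed cycles (of length at least
3) such that every arc (u, v) of the associated digraph is traversed exactly twice. -/
theorem result : ∀ (V : Type) [Fintype V] (G : SimpleGraph V),
    (∀ u v : V, G.Adj u v → (G.deleteEdges {s(u, v)}).Reachable u v) →
    ∃ C : List (Σ v : V, G.Walk v v),
      (∀ c ∈ C, c.2.IsCycle) ∧
      ∀ u v : V, G.Adj u v →
        (C.map (fun c => (c.2.darts.filter (fun d => decide (d.toProd = (u, v)))).length)).sum = 2 := by
  intro V _ G hG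
  set en : G.edgeSet → Sym2 V := fun e => (e : Sym2 V) with hen
  have hcut : ∀ X : Finset V, cn (fun e => vx en e false) (fun e => vx en e true) univ X ≠ 1 := by
    intro X h
    unfold cn at h
    obtain ⟨e, he⟩ := Finset.card_eq_one.1 h
    have hmem : ∀ f, f ∈ univ.filter (fun e => ¬ (vx en e false ∈ X ↔ vx en e true ∈ X)) ↔
        f ∈ ({e} : Finset G.edgeSet) := by
      intro f; rw [he]
    have h1 := (hmem e).2 (mem_singleton_self e)
    rw [mem_filter] at h1
    have hab : (e : Sym2 V) = s(vx en e false, vx en e true) := vx_spec en e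
    have hadj : G.Adj (vx en e false) (vx en e true) := by
      rw [← SimpleGraph.mem_edgeSet, ← hab]; exact e.2
    -- a walk from inside to outside avoiding e
    have key : ∀ x y : V, x ∈ X → y ∉ X → (G.deleteEdges {(e : Sym2 V)}).Reachable x y → False := by
      intro x y hx hy hxy
      obtain ⟨p⟩ := hxy
      obtain ⟨d, -, hd1, hd2⟩ := p.exists_boundary_dart (X : Set V) hx hy
      have hd := d.adj
      rw [SimpleGraph.deleteEdges_adj] at hd
      obtain ⟨hd3, hd4⟩ := hd
      let f : G.edgeSet := ⟨s(d.fst, d.snd), hd3⟩
      have hf : s(vx en f false, vx en f true) = s(d.fst, d.snd) := (vx_spec en f).symm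
      have hfm : f ∈ ({e} : Finset G.edgeSet) := by
        rw [← hmem f, mem_filter]
        refine ⟨mem_univ _, ?_⟩
        rw [Sym2.eq_iff] at hf
        rcases hf with ⟨h2, h3⟩ | ⟨h2, h3⟩
        · rw [h2, h3]
          intro h4
          exact hd2 (h4.1 hd1)
        · rw [h2, h3]
          intro h4
          exact hd2 (h4.2 hd1)
      rw [mem_singleton] at hfm
      apply hd4
      have h6 : (e : Sym2 V) = s(d.fst, d.snd) := (congrArg Subtype.val hfm).symm
      exact Set.mem_singleton_iff.2 h6.symm
    have hr := hG _ _ hadj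
    rw [← hab] at hr
    by_cases ha : vx en e false ∈ X
    · have hb : vx en e true ∉ X := fun hb => h1.2 ⟨fun _ => hb, fun _ => ha⟩
      exact key _ _ ha hb hr
    · have hb : vx en e true ∈ X := by
        by_contra hb
        exact h1.2 ⟨fun h => absurd h ha, fun h => absurd h hb⟩
      exact key _ _ hb ha hr.symm
  obtain ⟨S, hS1, hS2⟩ := eight en (fun e => notdiag G e) hcut
  choose L hL1 hL2 using fun i => decompose G _ (S i) rfl (hS1 i)
  let LL : List (Σ v : V, G.Walk v v) := (univ : Finset T3).toList.flatMap L
  have hLL : ∀ c ∈ LL, c.2.IsCycle := by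
    intro c hc
    obtain ⟨j, _, hj⟩ := List.mem_flatMap.1 hc
    exact hL1 j c hj
  refine ⟨LL ++ LL.map (fun c => ⟨c.1, c.2.reverse⟩), ?_, ?_⟩
  · intro c hc
    rcases List.mem_append.1 hc with hc | hc
    · exact hLL c hc
    · obtain ⟨d, hd, rfl⟩ := List.mem_map.1 hc
      exact (hLL d hd).reverse
  · intro u w huw
    rw [List.map_append, List.sum_append, List.map_map, ← List.sum_map_add]
    have h1 : ∀ c : (Σ v : V, G.Walk v v),
        (c.2.darts.filter (fun d => decide (d.toProd = (u, w)))).length +
        ((fun c : (Σ v : V, G.Walk v v) =>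
          (c.2.darts.filter (fun d => decide (d.toProd = (u, w)))).length) ∘
          (fun c : (Σ v : V, G.Walk v v) => (⟨c.1, c.2.reverse⟩ : Σ v : V, G.Walk v v))) c =
        c.2.edges.count s(u, w) := by
      intro c
      have h2 := both G u w huw.ne c.2.darts
      rw [Function.comp_apply]
      show _ + (c.2.reverse.darts.filter (fun d => decide (d.toProd = (u, w)))).length = _
      rw [SimpleGraph.Walk.darts_reverse]
      exact h2
    rw [List.map_congr_left (fun c _ => h1 c)]
    have h3 : (LL.map fun c => c.2.edges.count s(u, w)).sum =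
        ∑ i : T3, if (⟨s(u, w), huw⟩ : G.edgeSet) ∈ S i then 1 else 0 := by
      show ((((univ : Finset T3).toList.flatMap L).map fun c => c.2.edges.count s(u, w))).sum = _
      rw [sum_flat]
      have h4 : ∀ i, ((L i).map fun c => c.2.edges.count s(u, w)).sum =
          if (⟨s(u, w), huw⟩ : G.edgeSet) ∈ S i then 1 else 0 := fun i => hL2 i ⟨s(u, w), huw⟩
      simp only [h4]
      exact Finset.sum_map_toList _ _
    rw [h3, ← Finset.card_filter]
    convert hS2 ⟨s(u, w), huw⟩

end Pool.Agent.Results.MP_781dd6_co.HalfIntegral
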